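import Mathlib

/-!
# A closed cone, weakly separated from the origin, without a bounded base

`Y₀` is the space of finitely supported real sequences with the sup norm, `y₀ = (1/(k+1))_k`, and
`X = ℝ × ℝ × Y₀` with the cone `{(a, b, y) : ‖y - a y₀‖ ≤ b}` (sup norm). On the cone the norm is
controlled by `|a|` and `b`, and the cone contains elements close to `(1, 0, y₀)` and to
`-(1, 0, y₀)`.
-/

set_option autoImplicit false
open Filter Topology Metric

namespace Pool.Agent.Results.MP_388f8c_an.NoBoundedBase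

noncomputable section

section defs

variable {X : Type*} [NormedAddCommGroup X] [NormedSpace ℝ X]

/-- `C` is a (pointed convex) cone. -/
structure IsCone (C : Set X) : Prop where
  nonempty : C.Nonempty
  add : ∀ x ∈ C, ∀ y ∈ C, x + y ∈ C
  smul : ∀ c : ℝ, 0 ≤ c → ∀ x ∈ C, c • x ∈ C
  pointed : C ∩ {x | -x ∈ C} = {0}

/-- `B` is a base of `C`: a nonempty convex subset of `C` whose norm closure does not contain `0`,
such that every nonzero `c ∈ C` is `r • b` with `r > 0` and `b ∈ B` in exactly one way. -/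
structure IsBase (C B : Set X) : Prop where
  nonempty : B.Nonempty
  convex : Convex ℝ B
  sub : B ⊆ C
  zero_notMem : (0 : X) ∉ closure B
  unique : ∀ c ∈ C, c ≠ 0 → ∃! p : ℝ × X, 0 < p.1 ∧ p.2 ∈ B ∧ c = p.1 • p.2

/-- condition `(∗)`: for every `ε ∈ (0, 1)` the origin is not in the weak closure of
`C \ ε B_X`. -/
def WeaklySeparated (C : Set X) : Prop :=
  ∀ ε : ℝ, 0 < ε → ε < 1 →
    toWeakSpace ℝ X 0 ∉ closure (toWeakSpace ℝ X '' (C \ closedBall (0 : X) ε))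

end defs

section gen

variable {Y : Type} [NormedAddCommGroup Y] [NormedSpace ℝ Y]

/-- the space -/
abbrev X (Y0 : Submodule ℝ Y) : Type := ℝ × ℝ × Y0

/-- the cone -/
def C (Y0 : Submodule ℝ Y) (y0 : Y) : Set (X Y0) := {p | ‖(p.2.2 : Y) - p.1 • y0‖ ≤ p.2.1}

variable {Y0 : Submodule ℝ Y} {y0 : Y}

lemma C_cone (hy0 : y0 ∉ Y0) : IsCone (C Y0 y0) where
  nonempty := ⟨0, by simp [C]⟩
  add := by
    intro x hx y hy
    have h1 : ((x + y).2.2 : Y) - (x + y).1 • y0 =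
        ((x.2.2 : Y) - x.1 • y0) + ((y.2.2 : Y) - y.1 • y0) := by
      have e1 : ((x + y).2.2 : Y) = x.2.2 + y.2.2 := rfl
      have e2 : (x + y).1 = x.1 + y.1 := rfl
      rw [e1, e2, add_smul]
      abel
    show ‖((x + y).2.2 : Y) - (x + y).1 • y0‖ ≤ (x + y).2.1
    rw [h1]
    exact (norm_add_le _ _).trans (add_le_add hx hy)
  smul := by
    intro c hc x hx
    have h1 : ((c • x).2.2 : Y) - (c • x).1 • y0 = c • ((x.2.2 : Y) - x.1 • y0) := by
      have e1 : ((c • x).2.2 : Y) = c • (x.2.2 : Y) := rfl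
      have e2 : (c • x).1 = c * x.1 := rfl
      rw [e1, e2, smul_sub, mul_smul]
    show ‖((c • x).2.2 : Y) - (c • x).1 • y0‖ ≤ (c • x).2.1
    rw [h1, norm_smul, Real.norm_of_nonneg hc]
    exact mul_le_mul_of_nonneg_left hx hc
  pointed := by
    ext x
    simp only [Set.mem_inter_iff, Set.mem_ofPred_eq, Set.mem_singleton_iff]
    constructor
    · rintro ⟨h1, h2⟩
      have g1 : ‖(x.2.2 : Y) - x.1 • y0‖ ≤ x.2.1 := h1
      have g2 : ‖((-x).2.2 : Y) - (-x).1 • y0‖ ≤ (-x).2.1 := h2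
      have e2 : (-x).2.1 = -x.2.1 := rfl
      rw [e2] at g2
      have g3 := norm_nonneg ((x.2.2 : Y) - x.1 • y0)
      have g4 := norm_nonneg (((-x).2.2 : Y) - (-x).1 • y0)
      have b0 : x.2.1 = 0 := by linarith
      have z0 : (x.2.2 : Y) - x.1 • y0 = 0 := by
        rw [← norm_le_zero_iff]
        linarith
      have a0 : x.1 = 0 := by
        by_contra hne
        apply hy0
        have : y0 = x.1⁻¹ • (x.2.2 : Y) := by
          rw [sub_eq_zero.1 z0, smul_smul, inv_mul_cancel₀ hne, one_smul]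
        rw [this]
        exact Y0.smul_mem _ x.2.2.2
      have y00 : x.2.2 = 0 := by
        rw [a0, zero_smul, sub_zero] at z0
        exact Subtype.ext z0
      exact Prod.ext a0 (Prod.ext b0 y00)
    · rintro rfl
      simp [C]

lemma C_closed : IsClosed (C Y0 y0) := by
  unfold C
  exact isClosed_le (by fun_prop) (by fun_prop)

lemma norm_bound {x : X Y0} (hx : x ∈ C Y0 y0) : ‖x‖ ≤ (1 + ‖y0‖) * |x.1| + x.2.1 := by
  have h1 : ‖(x.2.2 : Y) - x.1 • y0‖ ≤ x.2.1 := hx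
  have h0 : 0 ≤ x.2.1 := (norm_nonneg _).trans h1
  have h2 : ‖x.2.2‖ ≤ x.2.1 + |x.1| * ‖y0‖ := by
    have h3 : ‖(x.2.2 : Y)‖ ≤ ‖(x.2.2 : Y) - x.1 • y0‖ + ‖x.1 • y0‖ := by
      have := norm_add_le ((x.2.2 : Y) - x.1 • y0) (x.1 • y0)
      rwa [sub_add_cancel] at this
    rw [norm_smul, Real.norm_eq_abs] at h3
    have h4 : ‖x.2.2‖ = ‖(x.2.2 : Y)‖ := rfl
    rw [h4]
    linarith
  have h5 : 0 ≤ |x.1| * ‖y0‖ := by positivity
  have h6 : 0 ≤ |x.1| := abs_nonneg _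
  rw [Prod.norm_def, Prod.norm_def]
  refine max_le ?_ (max_le ?_ ?_)
  · rw [Real.norm_eq_abs]
    nlinarith
  · rw [Real.norm_of_nonneg h0]
    nlinarith
  · nlinarith

lemma C_weak : WeaklySeparated (C Y0 y0) := by
  intro ε hε _ hcl
  set M : ℝ := 2 + ‖y0‖ with hM
  have hM0 : 0 < M := by positivity
  let f : X Y0 →L[ℝ] ℝ := ContinuousLinearMap.fst ℝ ℝ (ℝ × Y0)
  let g : X Y0 →L[ℝ] ℝ := (ContinuousLinearMap.fst ℝ ℝ Y0).comp (ContinuousLinearMap.snd ℝ ℝ (ℝ × Y0))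
  have hf : Continuous fun x : WeakSpace ℝ (X Y0) => f ((toWeakSpace ℝ (X Y0)).symm x) :=
    WeakBilin.eval_continuous (topDualPairing ℝ (X Y0)).flip f
  have hg : Continuous fun x : WeakSpace ℝ (X Y0) => g ((toWeakSpace ℝ (X Y0)).symm x) :=
    WeakBilin.eval_continuous (topDualPairing ℝ (X Y0)).flip g
  have hU : IsOpen ({x : WeakSpace ℝ (X Y0) | |f ((toWeakSpace ℝ (X Y0)).symm x)| < ε / M} ∩
      {x : WeakSpace ℝ (X Y0) | g ((toWeakSpace ℝ (X Y0)).symm x) < ε / M}) :=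
    (isOpen_lt hf.abs continuous_const).inter (isOpen_lt hg continuous_const)
  rw [_root_.mem_closure_iff] at hcl
  obtain ⟨z, hz1, hz2⟩ := hcl _ hU (by
    simp only [Set.mem_inter_iff, Set.mem_ofPred_eq, map_zero, abs_zero]
    exact ⟨by positivity, by positivity⟩)
  obtain ⟨x, ⟨hxC, hxε⟩, rfl⟩ := hz2
  simp only [Set.mem_inter_iff, Set.mem_ofPred_eq, LinearEquiv.symm_apply_apply] at hz1
  apply hxε
  rw [mem_closedBall, dist_zero_right]
  have h1 := norm_bound hxC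
  have e1 : f x = x.1 := rfl
  have e2 : g x = x.2.1 := rfl
  rw [e1, e2] at hz1
  have h2 : (1 + ‖y0‖) * |x.1| + x.2.1 ≤ (1 + ‖y0‖) * (ε / M) + ε / M := by
    have h3 : 0 ≤ 1 + ‖y0‖ := by positivity
    have := mul_le_mul_of_nonneg_left hz1.1.le h3
    linarith [hz1.2]
  have h4 : (1 + ‖y0‖) * (ε / M) + ε / M = ε := by
    rw [hM]
    field_simp
    ring
  linarith

lemma no_base (hyn : ∀ n : ℕ, ∃ y : Y0, ‖(y : Y) - y0‖ ≤ 1 / ((n : ℝ) + 1)) :
    ¬ ∃ B : Set (X Y0), IsBase (C Y0 y0) B ∧ ∃ M : ℝ, ∀ b ∈ B, ‖b‖ ≤ M := by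
  rintro ⟨B, hB, M', hM'⟩
  choose yn yn_close using hyn
  obtain ⟨f, u, hu0, hu⟩ := geometric_hahn_banach_point_closed hB.convex.closure isClosed_closure
    hB.zero_notMem
  rw [map_zero] at hu0
  obtain ⟨M, hM0, hM⟩ : ∃ M : ℝ, 0 < M ∧ ∀ b ∈ B, ‖b‖ ≤ M :=
    ⟨|M'| + 1, by positivity, fun b hb => (hM' b hb).trans (by linarith [le_abs_self M'])⟩
  -- `f c ≥ (u / M) ‖c‖` on `C`
  have hfC : ∀ c ∈ C Y0 y0, u / M * ‖c‖ ≤ f c := by
    intro c hc
    by_cases h0 : c = 0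
    · simp [h0]
    · obtain ⟨⟨r, b⟩, ⟨hr, hb, hrb⟩, -⟩ := hB.unique c hc h0
      simp only at hr hb hrb
      rw [hrb, norm_smul, Real.norm_of_nonneg hr.le, map_smul, smul_eq_mul]
      have h1 := hu b (subset_closure hb)
      have h2 := hM b hb
      have h3 : u / M * ‖b‖ ≤ u := by
        rw [div_mul_eq_mul_div, div_le_iff₀ hM0]
        exact mul_le_mul_of_nonneg_left h2 hu0.le
      nlinarith
  have hp : ∀ n : ℕ, ((1, 1 / ((n : ℝ) + 1), yn n) : X Y0) ∈ C Y0 y0 := by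
    intro n
    show ‖(yn n : Y) - (1 : ℝ) • y0‖ ≤ 1 / ((n : ℝ) + 1)
    rw [one_smul]
    exact yn_close n
  have hm : ∀ n : ℕ, ((-1, 1 / ((n : ℝ) + 1), -yn n) : X Y0) ∈ C Y0 y0 := by
    intro n
    show ‖((-yn n : Y0) : Y) - (-1 : ℝ) • y0‖ ≤ 1 / ((n : ℝ) + 1)
    have : ((-yn n : Y0) : Y) - (-1 : ℝ) • y0 = -((yn n : Y) - y0) := by
      rw [Submodule.coe_neg, neg_smul, one_smul]
      abel
    rw [this, norm_neg]
    exact yn_close n
  have key : ∀ n : ℕ, 2 * (u / M) ≤ 2 * f ((0, 1, 0) : X Y0) * (1 / ((n : ℝ) + 1)) := by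
    intro n
    have h1 := hfC _ (hp n)
    have h2 := hfC _ (hm n)
    have h3 : (1 : ℝ) ≤ ‖((1, 1 / ((n : ℝ) + 1), yn n) : X Y0)‖ := by
      refine le_trans ?_ (norm_fst_le _)
      simp
    have h4 : (1 : ℝ) ≤ ‖((-1, 1 / ((n : ℝ) + 1), -yn n) : X Y0)‖ := by
      refine le_trans ?_ (norm_fst_le _)
      simp
    have h5 : f ((1, 1 / ((n : ℝ) + 1), yn n) : X Y0) + f ((-1, 1 / ((n : ℝ) + 1), -yn n) : X Y0) =
        2 * f ((0, 1, 0) : X Y0) * (1 / ((n : ℝ) + 1)) := by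
      rw [← map_add]
      have : ((1, 1 / ((n : ℝ) + 1), yn n) : X Y0) + ((-1, 1 / ((n : ℝ) + 1), -yn n) : X Y0) =
          (2 * (1 / ((n : ℝ) + 1))) • ((0, 1, 0) : X Y0) := by
        refine Prod.ext ?_ (Prod.ext ?_ ?_)
        · simp
        · simp
          ring
        · simp
      rw [this, map_smul, smul_eq_mul]
      ring
    have h6 : 0 < u / M := by positivity
    nlinarith
  have hlim : Tendsto (fun n : ℕ => 2 * f ((0, 1, 0) : X Y0) * (1 / ((n : ℝ) + 1))) atTop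
      (𝓝 (2 * f ((0, 1, 0) : X Y0) * 0)) :=
    tendsto_one_div_add_atTop_nhds_zero_nat.const_mul _
  rw [mul_zero] at hlim
  have h7 := ge_of_tendsto' hlim key
  have h8 : 0 < u / M := by positivity
  linarith

end gen

/-- bounded sequences -/
abbrev Y : Type := lp (fun _ : ℕ => ℝ) ⊤

/-- the limit vector -/
def y0 : Y := ⟨fun k => 1 / ((k : ℝ) + 1), memℓp_infty ⟨1, by
  rintro _ ⟨k, rfl⟩
  simp only
  rw [Real.norm_of_nonneg (by positivity), div_le_one (by positivity)]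
  have : (0 : ℝ) ≤ k := Nat.cast_nonneg k
  linarith⟩⟩

/-- finitely supported sequences -/
def Y0 : Submodule ℝ Y where
  carrier := {f | ∃ n, ∀ k, n ≤ k → f k = 0}
  add_mem' := by
    rintro f g ⟨n, hn⟩ ⟨m, hm⟩
    refine ⟨max n m, fun k hk => ?_⟩
    rw [lp.coeFn_add, Pi.add_apply, hn k (by omega), hm k (by omega), add_zero]
  zero_mem' := ⟨0, fun k _ => rfl⟩
  smul_mem' := by
    rintro c f ⟨n, hn⟩
    refine ⟨n, fun k hk => ?_⟩
    rw [lp.coeFn_smul, Pi.smul_apply, hn k hk, smul_zero]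

lemma y0_apply (k : ℕ) : y0 k = 1 / ((k : ℝ) + 1) := rfl

lemma y0_notMem : y0 ∉ Y0 := by
  rintro ⟨n, hn⟩
  have := hn n le_rfl
  rw [y0_apply] at this
  have h2 : (0 : ℝ) < 1 / ((n : ℝ) + 1) := by positivity
  linarith

lemma yn_close (n : ℕ) : ∃ y : Y0, ‖(y : Y) - y0‖ ≤ 1 / ((n : ℝ) + 1) := by
  have hmem : Memℓp (fun k : ℕ => if k < n then 1 / ((k : ℝ) + 1) else 0) ⊤ := by
    refine memℓp_infty ⟨1, ?_⟩
    rintro _ ⟨k, rfl⟩
    simp only
    split_ifs
    · rw [Real.norm_of_nonneg (by positivity), div_le_one (by positivity)]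
      have : (0 : ℝ) ≤ k := Nat.cast_nonneg k
      linarith
    · simp
  refine ⟨⟨⟨_, hmem⟩, n, fun k hk => if_neg (by omega)⟩, ?_⟩
  apply lp.norm_le_of_forall_le (by positivity)
  intro k
  rw [lp.coeFn_sub, Pi.sub_apply, y0_apply]
  show ‖(if k < n then 1 / ((k : ℝ) + 1) else 0) - 1 / ((k : ℝ) + 1)‖ ≤ _
  split_ifs with h
  · rw [sub_self, norm_zero]
    positivity
  · rw [zero_sub, norm_neg, Real.norm_of_nonneg (by positivity)]
    apply one_div_le_one_div_of_le (by positivity)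
    have : (n : ℝ) ≤ k := by exact_mod_cast not_lt.1 h
    linarith

/-- There are a real normed space and a norm closed cone in it which satisfies `(∗)` but has no
bounded base. -/
theorem result : ∃ (X : Type) (_ : NormedAddCommGroup X) (_ : NormedSpace ℝ X) (C : Set X),
    IsCone C ∧ IsClosed C ∧ WeaklySeparated C ∧
      ¬ ∃ B : Set X, IsBase C B ∧ ∃ M : ℝ, ∀ b ∈ B, ‖b‖ ≤ M :=
  ⟨X Y0, inferInstance, inferInstance, C Y0 y0, C_cone y0_notMem, C_closed, C_weak, no_base yn_close⟩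

end

end Pool.Agent.Results.MP_388f8c_an.NoBoundedBase
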